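import Pool.Agent.Helper49_HM.Out

/-!
# OUT: elements from the Levi-Civita state
-/

namespace Pool.Agent.HM.H65

open Complex Set Topology
open Pool.Agent.HM

noncomputable section

lemma arctan_pos_bound {x : ℝ} (hx : 0 ≤ x) :
    Real.arctan x ≤ x ∧ x - x ^ 3 / 3 ≤ Real.arctan x := by
  have d1 : ∀ y : ℝ, HasDerivAt (fun y => y - Real.arctan y) (1 - 1 / (1 + y ^ 2)) y := fun y =>
    (hasDerivAt_id y).sub (Real.hasDerivAt_arctan y)
  have d2 : ∀ y : ℝ, HasDerivAt (fun y => Real.arctan y - y + y ^ 3 / 3)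
      (1 / (1 + y ^ 2) - 1 + y ^ 2) y := by
    intro y
    have h3 : HasDerivAt (fun y : ℝ => y ^ 3 / 3) (y ^ 2) y := by
      have := ((hasDerivAt_id y).pow 3).div_const 3
      refine this.congr_deriv ?_
      simp
    exact ((Real.hasDerivAt_arctan y).sub (hasDerivAt_id y)).add h3
  have m1 : Monotone (fun y => y - Real.arctan y) := by
    refine monotone_of_deriv_nonneg (fun y => (d1 y).differentiableAt) ?_
    intro y
    rw [(d1 y).deriv]
    have : 0 < 1 + y ^ 2 := by positivity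
    rw [sub_nonneg, div_le_one this]
    nlinarith
  have m2 : Monotone (fun y => Real.arctan y - y + y ^ 3 / 3) := by
    refine monotone_of_deriv_nonneg (fun y => (d2 y).differentiableAt) ?_
    intro y
    rw [(d2 y).deriv]
    have : 0 < 1 + y ^ 2 := by positivity
    have e : 1 / (1 + y ^ 2) - 1 + y ^ 2 = y ^ 4 / (1 + y ^ 2) := by
      field_simp
      ring
    rw [e]
    positivity
  have h1 := m1 hx
  have h2 := m2 hx
  simp at h1 h2
  constructor <;> linarith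

lemma arctan_bound (x : ℝ) : |Real.arctan x - x| ≤ |x| ^ 3 / 3 ∧ |Real.arctan x| ≤ |x| := by
  rcases le_total 0 x with hx | hx
  · obtain ⟨h1, h2⟩ := arctan_pos_bound hx
    have h3 : 0 ≤ Real.arctan x := Real.arctan_nonneg.mpr hx
    rw [abs_of_nonneg hx, abs_of_nonneg h3, abs_le]
    refine ⟨⟨by linarith, ?_⟩, h1⟩
    have : 0 ≤ x ^ 3 / 3 := by positivity
    linarith
  · have hx' : 0 ≤ -x := by linarith
    obtain ⟨h1, h2⟩ := arctan_pos_bound hx'
    have h3 : 0 ≤ Real.arctan (-x) := Real.arctan_nonneg.mpr hx'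
    rw [Real.arctan_neg] at h1 h2 h3
    rw [abs_of_nonpos hx, abs_of_nonpos (by linarith : Real.arctan x ≤ 0), abs_le]
    refine ⟨⟨?_, by linarith⟩, h1⟩
    have : 0 ≤ (-x) ^ 3 / 3 := by positivity
    linarith

lemma arg_eq_arctan' {y : ℂ} (h : 0 < y.re) : arg y = Real.arctan (y.im / y.re) := by
  have h1 : |arg y| < Real.pi / 2 := Complex.abs_arg_lt_pi_div_two_iff.mpr (Or.inl h)
  rw [← Complex.tan_arg, Real.arctan_tan (abs_lt.mp h1).1 (abs_lt.mp h1).2]

/-- the constant -/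
def cc : ℂ := ⟨-0.098230316560, 0.995163707592⟩

lemma exp_x0 : ‖exp (I * (0.09838898038 : ℝ)) - ⟨0.995163707592, 0.098230316560⟩‖ ≤ 1e-10 := by
  have h := Complex.exp_bound (x := I * (0.09838898038 : ℝ)) (by
    rw [norm_mul, Complex.norm_I, Complex.norm_real]
    norm_num) (n := 8) (by norm_num)
  have hn : ‖I * (0.09838898038 : ℝ)‖ = 0.09838898038 := by
    rw [norm_mul, Complex.norm_I, Complex.norm_real]
    norm_num
  rw [hn] at h
  have e : (∑ j ∈ Finset.range 8, (I * (0.09838898038 : ℝ)) ^ j / (j.factorial : ℂ)) =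
      ⟨1 - 0.09838898038 ^ 2 / 2 + 0.09838898038 ^ 4 / 24 - 0.09838898038 ^ 6 / 720,
        0.09838898038 - 0.09838898038 ^ 3 / 6 + 0.09838898038 ^ 5 / 120 -
          0.09838898038 ^ 7 / 5040⟩ := by
    simp only [Finset.sum_range_succ, Finset.sum_range_zero, Nat.factorial]
    apply Complex.ext
    · simp [pow_succ]
      norm_num
    · simp [pow_succ]
      norm_num
  rw [e] at h
  have h2 : ‖(⟨1 - 0.09838898038 ^ 2 / 2 + 0.09838898038 ^ 4 / 24 - 0.09838898038 ^ 6 / 720,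
        0.09838898038 - 0.09838898038 ^ 3 / 6 + 0.09838898038 ^ 5 / 120 -
          0.09838898038 ^ 7 / 5040⟩ : ℂ) - ⟨0.995163707592, 0.098230316560⟩‖ ≤ 1e-11 := by
    refine (Complex.norm_le_abs_re_add_abs_im _).trans ?_
    simp only [Complex.sub_re, Complex.sub_im]
    norm_num [abs_le]
  have h3 : (0.09838898038 : ℝ) ^ 8 * ((Nat.succ 8 : ℝ) * ((Nat.factorial 8 : ℝ) * (8 : ℝ))⁻¹) ≤
      1e-11 := by
    norm_num [Nat.factorial]
  have h4 := norm_add_le (exp (I * (0.09838898038 : ℝ)) -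
    (⟨1 - 0.09838898038 ^ 2 / 2 + 0.09838898038 ^ 4 / 24 - 0.09838898038 ^ 6 / 720,
        0.09838898038 - 0.09838898038 ^ 3 / 6 + 0.09838898038 ^ 5 / 120 -
          0.09838898038 ^ 7 / 5040⟩ : ℂ))
    ((⟨1 - 0.09838898038 ^ 2 / 2 + 0.09838898038 ^ 4 / 24 - 0.09838898038 ^ 6 / 720,
        0.09838898038 - 0.09838898038 ^ 3 / 6 + 0.09838898038 ^ 5 / 120 -
          0.09838898038 ^ 7 / 5040⟩ : ℂ) - ⟨0.995163707592, 0.098230316560⟩)
  rw [sub_add_sub_cancel] at h4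
  refine h4.trans ?_
  have h5 := h.trans (by exact_mod_cast h3)
  refine (add_le_add h5 h2).trans ?_
  norm_num

lemma exp_gref : ‖exp (-(I * (gref : ℂ))) - cc‖ ≤ 2e-10 := by
  obtain ⟨d, hd⟩ : ∃ d : ℝ, d = 3 * Real.pi / 2 - gref - 0.09838898038 := ⟨_, rfl⟩
  have h1 : exp (-(I * (gref : ℂ))) =
      I * (exp (I * (0.09838898038 : ℝ)) * exp (I * (d : ℝ))) := by
    have e : -(I * (gref : ℂ)) = Real.pi / 2 * I - 2 * Real.pi * I +
        (I * (0.09838898038 : ℝ) + I * (d : ℝ)) := by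
      rw [hd]
      push_cast
      ring
    rw [e, Complex.exp_add, Complex.exp_sub, exp_two_pi_mul_I, exp_pi_div_two_mul_I, div_one,
      Complex.exp_add]
  have h2 : cc = I * ⟨0.995163707592, 0.098230316560⟩ := by
    apply Complex.ext
    · simp [cc]
    · simp [cc]
  have hd1 : |d| ≤ 1e-11 := by
    rw [hd, gref]
    have := Real.pi_gt_d20
    have := Real.pi_lt_d20
    rw [abs_le]
    constructor <;> linarith
  have h3 : ‖exp (I * (d : ℝ)) - 1‖ ≤ 1e-11 :=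
    (Real.norm_exp_I_mul_ofReal_sub_one_le (x := d)).trans hd1
  have h4 := exp_x0
  rw [h1, h2, ← mul_sub, norm_mul, Complex.norm_I, one_mul]
  have h5 : exp (I * (0.09838898038 : ℝ)) * exp (I * (d : ℝ)) - ⟨0.995163707592, 0.098230316560⟩ =
      (exp (I * (0.09838898038 : ℝ)) - ⟨0.995163707592, 0.098230316560⟩) +
        exp (I * (0.09838898038 : ℝ)) * (exp (I * (d : ℝ)) - 1) := by ring
  rw [h5]
  refine (norm_add_le _ _).trans ?_
  rw [norm_mul, mul_comm I, Complex.norm_exp_ofReal_mul_I, one_mul]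
  rw [mul_comm I] at h4
  linarith

lemma cc_norm : 0.99 ≤ ‖cc‖ := by
  refine le_trans ?_ (Complex.abs_im_le_norm _)
  simp only [cc]
  norm_num [abs_of_pos]

/-- small argument of `1 + δ` -/
lemma arg_near_one {y : ℂ} (h : ‖y - 1‖ ≤ 3e-10) : y ≠ 0 ∧ |arg y| ≤ 4e-10 := by
  have h1 : |y.re - 1| ≤ 3e-10 := by
    have := Complex.abs_re_le_norm (y - 1)
    simp at this
    linarith
  have h2 : |y.im| ≤ 3e-10 := by
    have := Complex.abs_im_le_norm (y - 1)
    simp at this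
    linarith
  rw [abs_le] at h1
  have hre : 0 < y.re := by linarith
  refine ⟨?_, ?_⟩
  · rintro rfl
    simp at hre
  · rw [arg_eq_arctan' hre]
    refine (arctan_bound _).2.trans ?_
    rw [abs_div, abs_of_pos hre, div_le_iff₀ hre]
    nlinarith

theorem out : OutStmt := by
  intro m hm X hz hl hre him
  have hzn : 0 < ‖X.1‖ := norm_pos_iff.mpr hz
  have hln : 0 < ‖X.2.1‖ := norm_pos_iff.mpr hl
  have hcz : (starRingEnd ℂ) X.1 ≠ 0 := by
    simpa using hz
  have hM : 0 < m 0 + m 1 := add_pos (hm 0) (hm 1)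
  have hmT : 0 < mT m := by
    unfold mT
    have := hm 2
    linarith
  have hcr : cr (X.1 ^ 2) (2 * X.2.2.1 / (starRingEnd ℂ) X.1) = 2 * cr X.1 X.2.2.1 := by
    unfold cr
    have : (starRingEnd ℂ) (X.1 ^ 2) * (2 * X.2.2.1 / (starRingEnd ℂ) X.1) =
        (2 : ℝ) * ((starRingEnd ℂ) X.1 * X.2.2.1) := by
      rw [map_pow]
      push_cast
      field_simp
    rw [this, Complex.im_ofReal_mul]
  have hsq : ((‖X.1‖ : ℝ) : ℂ) ^ 2 = (starRingEnd ℂ) X.1 * X.1 := by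
    rw [Complex.conj_mul']
  have hn2 : ((‖X.1 ^ 2‖ : ℝ) : ℂ) = (starRingEnd ℂ) X.1 * X.1 := by
    rw [norm_pow]
    push_cast
    exact hsq
  have hMc : ((m 0 + m 1 : ℝ) : ℂ) ≠ 0 := Complex.ofReal_ne_zero.mpr hM.ne'
  have hmTc : ((mT m : ℝ) : ℂ) ≠ 0 := Complex.ofReal_ne_zero.mpr hmT.ne'
  have hlc : ((‖X.2.1‖ : ℝ) : ℂ) ≠ 0 := Complex.ofReal_ne_zero.mpr hln.ne'
  have hA : ((‖X.1‖ : ℝ) : ℂ) ^ 2 * lrl m (toJ X) =
      -(X.1 * (X.1 + 4 * I * (cr X.1 X.2.2.1 : ℂ) * X.2.2.1 / ((m 0 + m 1 : ℝ) : ℂ))) := by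
    unfold lrl toJ
    simp only
    rw [hcr, hn2, hsq]
    push_cast at hMc ⊢
    field_simp
    ring
  have hB : ((‖X.2.1‖ : ℝ) : ℂ) * outm m (toJ X) =
      X.2.1 + I * (cr X.2.1 X.2.2.2 : ℂ) * X.2.2.2 * (‖X.2.1‖ : ℂ) / (mT m : ℂ) := by
    unfold outm toJ
    simp only
    field_simp
  have hB' : ((‖X.2.1‖ : ℝ) : ℂ) * (starRingEnd ℂ) (outm m (toJ X)) =
      (starRingEnd ℂ) (X.2.1 + I * (cr X.2.1 X.2.2.2 : ℂ) * X.2.2.2 * (‖X.2.1‖ : ℂ) /
        (mT m : ℂ)) := by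
    rw [← hB, map_mul, Complex.conj_ofReal]
  have hW : Wout m X = ((‖X.1‖ ^ 2 * ‖X.2.1‖ : ℝ) : ℂ) *
      (lrl m (toJ X) * (starRingEnd ℂ) (outm m (toJ X)) * cc) := by
    unfold Wout
    rw [← hA, ← hB', cc]
    push_cast
    ring
  have hr : 0 < ‖X.1‖ ^ 2 * ‖X.2.1‖ := by positivity
  have hcc : cc ≠ 0 := by
    intro h
    have := cc_norm
    rw [h, norm_zero] at this
    norm_num at this
  have hW0 : Wout m X ≠ 0 := by
    intro h
    rw [h] at hre
    simp at hre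
  obtain ⟨y, hy⟩ : ∃ y : ℂ, y = exp (-(I * (gref : ℂ))) / cc := ⟨_, rfl⟩
  have hy1 : ‖y - 1‖ ≤ 3e-10 := by
    have e : y - 1 = (exp (-(I * (gref : ℂ))) - cc) / cc := by
      rw [hy]
      field_simp
    rw [e, norm_div, div_le_iff₀ (by linarith [cc_norm])]
    have := exp_gref
    have := cc_norm
    nlinarith
  obtain ⟨hy0, hya⟩ := arg_near_one hy1
  have hkey : Wout m X * y = ((‖X.1‖ ^ 2 * ‖X.2.1‖ : ℝ) : ℂ) *
      (lrl m (toJ X) * (starRingEnd ℂ) (outm m (toJ X)) * exp (-(I * (gref : ℂ)))) := by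
    rw [hW, hy]
    field_simp
  have harg : arg (Wout m X * y) = arg (lrl m (toJ X) * (starRingEnd ℂ) (outm m (toJ X)) *
      exp (-(I * (gref : ℂ)))) := by
    rw [hkey, Complex.arg_real_mul _ hr]
  have hWa : arg (Wout m X) = Real.arctan ((Wout m X).im / (Wout m X).re) := arg_eq_arctan' hre
  have hx : |(Wout m X).im / (Wout m X).re| ≤ 0.006 := by
    rw [abs_div, abs_of_pos hre, div_le_iff₀ hre]
    exact him
  obtain ⟨hb1, hb2⟩ := arctan_bound ((Wout m X).im / (Wout m X).re)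
  have hb3 : |(Wout m X).im / (Wout m X).re| ^ 3 / 3 ≤ 0.006 ^ 3 / 3 := by
    gcongr
  have hsum : arg (Wout m X * y) = arg (Wout m X) + arg y := by
    rw [Complex.arg_mul_eq_add_arg_iff hW0 hy0, hWa]
    have h1 := abs_le.mp (hb2.trans hx)
    have h2 := abs_le.mp hya
    have h3 := Real.pi_gt_three
    constructor <;> linarith [h1.1, h1.2, h2.1, h2.2]
  refine ⟨?_, ?_, ?_⟩
  · unfold LL toJ
    simp only
    rw [hcr]
    ring
  · unfold toJ
    simp
  · have hg : gg m (toJ X) = gref + arg (Wout m X * y) := by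
      rw [harg]
      rfl
    rw [hg, hsum, hWa]
    have h1 := abs_le.mp (hb1.trans hb3)
    have h2 := abs_le.mp hya
    rw [abs_le]
    constructor <;> linarith [h1.1, h1.2, h2.1, h2.2]

end

end Pool.Agent.HM.H65
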