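import Pool.Agent.Helper4_HM.StmtZ

/-!
# ZCH: chaining of the validated steps
-/

namespace Pool.Agent.HM.H65

open Set Finset Pool.Agent.HM.H4

theorem track_congr (P : ℕ) (x x' : ℝ → Fin 8 → ℝ) :
    ∀ (cs : List (Cert × ((Fin 8 → ℝ) → Prop))) (a : ℕ),
      (∀ t, (a : ℝ) / 2 ^ P ≤ t → x t = x' t) → Track P x a cs → Track P x' a cs := by
  intro cs
  induction cs with
  | nil => intro a _ _; exact trivial
  | cons c cs ih =>
    obtain ⟨c, Q⟩ := c
    intro a h ht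
    refine ⟨fun s hs => ?_, ih (a + 2 * c.h) (fun t ht' => h t (le_trans ?_ ht')) ht.2⟩
    · rw [← h s hs.1]
      exact ht.1 s hs
    · have h2 : (0 : ℝ) < 2 ^ P := by positivity
      rw [div_le_div_iff_of_pos_right h2]
      push_cast
      have : (0 : ℝ) ≤ 2 * c.h := by positivity
      linarith

theorem ent_pair (E : List (List ℤ)) (i k : ℕ) :
    (((((pairE E).getD i []).getD k (0, 0)).1 : ℕ) : ℝ) -
      (((((pairE E).getD i []).getD k (0, 0)).2 : ℕ) : ℝ) = (ent E i k : ℝ) := by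
  have h1 : (pairE E).getD i [] = (E.getD i []).map fun a => (a.toNat, (-a).toNat) := by
    unfold pairE
    exact List.getD_map E [] (fun l : List ℤ => l.map fun a => (a.toNat, (-a).toNat))
  have h2 : ((E.getD i []).map fun a => (a.toNat, (-a).toNat)).getD k (0, 0) =
      ((ent E i k).toNat, (-(ent E i k)).toNat) := by
    unfold ent
    exact List.getD_map (E.getD i []) 0 (fun a : ℤ => (a.toNat, (-a).toNat))
  rw [h1, h2]
  have h3 := Int.toNat_sub_toNat_neg (ent E i k)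
  exact_mod_cast h3

/-- gluing of solutions -/
theorem glue {G : (Fin 8 → ℝ) → (Fin 8 → ℝ)} {a b c : ℝ} (hab : a ≤ b) (hbc : b ≤ c)
    {x y z : ℝ → Fin 8 → ℝ} (h1 : ∀ t ∈ Icc a b, z t = x t) (h2 : ∀ t ∈ Icc b c, z t = y t)
    (hx : ∀ t ∈ Icc a b, HasDerivWithinAt x (G (x t)) (Icc a b) t)
    (hy : ∀ t ∈ Icc b c, HasDerivWithinAt y (G (y t)) (Icc b c) t) :
    ∀ t ∈ Icc a c, HasDerivWithinAt z (G (z t)) (Icc a c) t := by
  intro t ht
  rw [← Icc_union_Icc_eq_Icc hab hbc]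
  apply HasDerivWithinAt.union
  · by_cases h : t ≤ b
    · have ht' : t ∈ Icc a b := ⟨ht.1, h⟩
      rw [h1 t ht']
      exact (hx t ht').congr h1 (h1 t ht')
    · apply HasFDerivWithinAt.of_notMem_closure
      rw [isClosed_Icc.closure_eq]
      exact fun h' => h h'.2
  · by_cases h : b ≤ t
    · have ht' : t ∈ Icc b c := ⟨h, ht.2⟩
      rw [h2 t ht']
      exact (hy t ht').congr h2 (h2 t ht')
    · apply HasFDerivWithinAt.of_notMem_closure
      rw [isClosed_Icc.closure_eq]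
      exact fun h' => h h'.1

/-- one step -/
theorem one_step {G : (Fin 8 → ℝ) → (Fin 8 → ℝ)} {P : ℕ}
    {J : List (List ℤ) → (Fin 4 → ℝ) → Fin 8 → ℝ} {w Qs D : ℕ} {c : Cert}
    {Q : (Fin 8 → ℝ) → Prop} {s : ZS} (hw : 1 ≤ w) (hQ : Qs ≤ w) (hS : StepP G P J c Q)
    (hc : zchk w Qs D s c.B (pairE c.E) c.R = true) (ξ : Fin 4 → ℝ) (hξ : ∀ i, |ξ i| ≤ 1)
    (x0 : Fin 8 → ℝ) (h0 : InZ w P D s (fun i => x0 i - J c.C ξ i)) :
    ∃ x : ℝ → Fin 8 → ℝ, x (-1) = x0 ∧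
      (∀ t ∈ Icc (-1 : ℝ) 1,
        HasDerivWithinAt x (fun i => (c.h : ℝ) / 2 ^ P * G (x t) i) (Icc (-1) 1) t ∧ Q (x t)) ∧
      InZ w P D (zstep w Qs D s c.B (pairE c.E) c.R) (fun i => x 1 i - J c.C' ξ i) := by
  obtain ⟨y, hy, hy'⟩ := h0
  have hc' := hc
  unfold zchk at hc'
  simp only [Bool.and_eq_true, beq_iff_eq] at hc'
  obtain ⟨⟨⟨⟨⟨hl1, hl2⟩, hl3⟩, hl4⟩, hcB⟩, hcE⟩ := hc'
  have hyb : ∀ i < 8, |y i| ≤ (c.B.getD i 0 : ℝ) * 2 ^ D := fun i hi =>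
    hy.unit hl1 hl2 hcB hi
  have h2D : (0 : ℝ) < 2 ^ D := by positivity
  have h2P : (0 : ℝ) < 2 ^ P := by positivity
  -- normalised errors
  let η : Fin 8 → ℝ := fun i => y i / (c.B.getD i 0 * 2 ^ D)
  have hη : ∀ i, |η i| ≤ 1 := by
    intro i
    show |y i / (c.B.getD i 0 * 2 ^ D)| ≤ 1
    rw [abs_div, abs_of_nonneg (by positivity : (0 : ℝ) ≤ c.B.getD i 0 * 2 ^ D)]
    exact div_le_one_of_le₀ (hyb i i.2) (by positivity)
  have hBη : ∀ i : Fin 8, (c.B.getD i 0 : ℝ) * η i = y i / 2 ^ D := by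
    intro i
    show (c.B.getD i 0 : ℝ) * (y i / (c.B.getD i 0 * 2 ^ D)) = y i / 2 ^ D
    rcases Nat.eq_zero_or_pos (c.B.getD i 0) with h | h
    · have := hyb i i.2
      rw [h] at this
      have h1 : y i = 0 := by
        rw [← abs_nonpos_iff]
        simpa using this
      rw [h1]
      simp
    · have : (c.B.getD i 0 : ℝ) ≠ 0 := by exact_mod_cast h.ne'
      field_simp
  have hηy : ∀ i : Fin 8, η i * 2 ^ D = y i / c.B.getD i 0 := by
    intro i
    show y i / (c.B.getD i 0 * 2 ^ D) * 2 ^ D = y i / c.B.getD i 0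
    rw [div_mul_eq_div_div, div_mul_cancel₀ _ h2D.ne']
  obtain ⟨x, hx0, hx, hx1⟩ := hS ξ hξ η hη
  refine ⟨x, ?_, hx, ?_⟩
  · funext i
    rw [hx0 i, hBη i]
    have := hy' i
    simp only at this
    have e : y i / 2 ^ D / 2 ^ P = y i / 2 ^ (P + D) := by
      rw [pow_add, div_div, mul_comm]
    rw [e]
    linarith
  · refine ⟨fun i => if h : i < 8 then (x 1 ⟨i, h⟩ - J c.C' ξ ⟨i, h⟩) * 2 ^ (P + D) else 0, ?_, ?_⟩
    · refine zstep_sound hw hQ hc hy ?_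
      intro i hi
      rw [dif_pos hi]
      have h1 := hx1 ⟨i, hi⟩
      have e1 : ∑ k ∈ range 8, ((((((pairE c.E).getD i []).getD k (0, 0)).1 : ℕ) : ℝ) -
          (((((pairE c.E).getD i []).getD k (0, 0)).2 : ℕ) : ℝ)) / (c.B.getD k 0 : ℝ) * y k =
          (∑ k : Fin 8, (ent c.E i k : ℝ) * η k) * 2 ^ D := by
        rw [Finset.sum_range, Finset.sum_mul]
        refine Finset.sum_congr rfl fun k _ => ?_
        rw [ent_pair, mul_assoc, hηy k]
        ring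
      rw [e1]
      have e2 : (x 1 ⟨i, hi⟩ - J c.C' ξ ⟨i, hi⟩) * 2 ^ (P + D) -
          (∑ k : Fin 8, (ent c.E i k : ℝ) * η k) * 2 ^ D =
          (x 1 ⟨i, hi⟩ - J c.C' ξ ⟨i, hi⟩ - (∑ k : Fin 8, (ent c.E i k : ℝ) * η k) / 2 ^ P) *
            2 ^ (P + D) := by
        rw [pow_add]
        field_simp
      rw [e2, abs_mul, abs_of_pos (by positivity : (0 : ℝ) < 2 ^ (P + D))]
      calc _ ≤ (c.R.getD i 0 : ℝ) / 2 ^ P * 2 ^ (P + D) := by gcongr
        _ = (c.R.getD i 0 : ℝ) * 2 ^ D := by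
          rw [pow_add]
          field_simp
    · intro i
      simp only [Fin.is_lt, dite_true, Fin.eta]
      have : (2 : ℝ) ^ (P + D) ≠ 0 := by positivity
      field_simp

/-- general form -/
theorem chain {G : (Fin 8 → ℝ) → (Fin 8 → ℝ)} {P : ℕ}
    {J : List (List ℤ) → (Fin 4 → ℝ) → Fin 8 → ℝ} {w Qs D : ℕ} (hw : 1 ≤ w) (hQ : Qs ≤ w)
    (ξ : Fin 4 → ℝ) (hξ : ∀ i, |ξ i| ≤ 1) :
    ∀ (cs : List (Cert × ((Fin 8 → ℝ) → Prop))) (C C' : List (List ℤ)) (s s' : ZS) (a : ℕ),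
      (∀ c ∈ cs, 0 < c.1.h) → (∀ c ∈ cs, StepP G P J c.1 c.2) →
      zrun w Qs D (cs.map Prod.fst) C s = some (C', s') → ∀ x0 : Fin 8 → ℝ,
      InZ w P D s (fun i => x0 i - J C ξ i) →
      ∃ x : ℝ → Fin 8 → ℝ, x ((a : ℝ) / 2 ^ P) = x0 ∧
        (∀ t ∈ Icc ((a : ℝ) / 2 ^ P) (((a + ztime (cs.map Prod.fst) : ℕ) : ℝ) / 2 ^ P),
          HasDerivWithinAt x (G (x t))
            (Icc ((a : ℝ) / 2 ^ P) (((a + ztime (cs.map Prod.fst) : ℕ) : ℝ) / 2 ^ P)) t) ∧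
        Track P x a cs ∧
        InZ w P D s' (fun i => x (((a + ztime (cs.map Prod.fst) : ℕ) : ℝ) / 2 ^ P) i - J C' ξ i) := by
  intro cs
  induction cs with
  | nil =>
    intro C C' s s' a _ _ hrun x0 h0
    have hrun' : some (C, s) = some (C', s') := hrun
    rw [Option.some.injEq, Prod.mk.injEq] at hrun'
    obtain ⟨rfl, rfl⟩ := hrun'
    refine ⟨fun _ => x0, rfl, ?_, trivial, h0⟩
    intro t ht
    have e : (Icc ((a : ℝ) / 2 ^ P) (((a + ztime (List.map Prod.fst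
        ([] : List (Cert × ((Fin 8 → ℝ) → Prop)))) : ℕ) : ℝ) / 2 ^ P)) = {(a : ℝ) / 2 ^ P} := by
      show Icc ((a : ℝ) / 2 ^ P) ((a : ℝ) / 2 ^ P) = _
      exact Icc_self _
    rw [e] at ht ⊢
    rw [mem_singleton_iff] at ht
    rw [ht]
    exact HasFDerivWithinAt.of_subsingleton subsingleton_singleton
  | cons c cs ih =>
    obtain ⟨c, Q⟩ := c
    intro C C' s s' a hpos hS hrun x0 h0
    have hrun' : (if decide (c.C = C) && zchk w Qs D s c.B (pairE c.E) c.R then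
      zrun w Qs D (cs.map Prod.fst) c.C' (zstep w Qs D s c.B (pairE c.E) c.R)
      else none) = some (C', s') := hrun
    split_ifs at hrun' with hif
    rw [Bool.and_eq_true, decide_eq_true_eq] at hif
    obtain ⟨hCC, hchk⟩ := hif
    subst hCC
    have hh : 0 < c.h := hpos (c, Q) (by simp)
    obtain ⟨x1, hx1, hx1d, hx1e⟩ := one_step hw hQ (hS (c, Q) (by simp)) hchk ξ hξ x0 h0
    obtain ⟨x2, hx2, hx2d, hx2t, hx2e⟩ := ih c.C' C' _ s' (a + 2 * c.h)
      (fun c' hc' => hpos c' (List.mem_cons_of_mem _ hc'))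
      (fun c' hc' => hS c' (List.mem_cons_of_mem _ hc')) hrun' (x1 1) hx1e
    have h2P : (0 : ℝ) < 2 ^ P := by positivity
    have hhr : (0 : ℝ) < c.h := by exact_mod_cast hh
    obtain ⟨A, hA⟩ : ∃ A : ℝ, A = (a : ℝ) / 2 ^ P := ⟨_, rfl⟩
    obtain ⟨B, hB⟩ : ∃ B : ℝ, B = ((a + 2 * c.h : ℕ) : ℝ) / 2 ^ P := ⟨_, rfl⟩
    have hBA : B - A = 2 * (c.h / 2 ^ P) := by
      rw [hA, hB]
      push_cast
      ring
    have hhp : (0 : ℝ) < c.h / 2 ^ P := by positivity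
    have hAB : A ≤ B := by linarith
    obtain ⟨E, hE⟩ : ∃ E : ℝ, E = ((a + 2 * c.h + ztime (cs.map Prod.fst) : ℕ) : ℝ) / 2 ^ P :=
      ⟨_, rfl⟩
    have hBE : B ≤ E := by
      rw [hB, hE, div_le_div_iff_of_pos_right h2P]
      exact_mod_cast Nat.le_add_right _ _
    have hE' : ((a + ztime (List.map Prod.fst ((c, Q) :: cs)) : ℕ) : ℝ) / 2 ^ P = E := by
      rw [hE]
      congr 2
      show a + (2 * c.h + ztime (cs.map Prod.fst)) = _
      omega
    rw [hE', ← hA]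
    rw [← hB] at hx2
    rw [← hB, ← hE] at hx2d
    rw [← hE] at hx2e
    let φ : ℝ → ℝ := fun t => (t - A) / (c.h / 2 ^ P) - 1
    have φA : φ A = -1 := by
      show (A - A) / (c.h / 2 ^ P) - 1 = -1
      simp
    have φB : φ B = 1 := by
      show (B - A) / (c.h / 2 ^ P) - 1 = 1
      rw [hBA, mul_div_assoc, div_self hhp.ne']
      norm_num
    have φm : ∀ t ∈ Icc A B, φ t ∈ Icc (-1 : ℝ) 1 := by
      intro t ht
      constructor
      · show -1 ≤ (t - A) / (c.h / 2 ^ P) - 1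
        have : 0 ≤ (t - A) / (c.h / 2 ^ P) := div_nonneg (by linarith [ht.1]) hhp.le
        linarith
      · show (t - A) / (c.h / 2 ^ P) - 1 ≤ 1
        have : (t - A) / (c.h / 2 ^ P) ≤ 2 := by
          rw [div_le_iff₀ hhp]
          linarith [ht.2]
        linarith
    have φd : ∀ t, HasDerivAt φ (1 / (c.h / 2 ^ P)) t := fun t =>
      (((hasDerivAt_id t).sub_const A).div_const _).sub_const 1
    let z : ℝ → Fin 8 → ℝ := fun t => if t ≤ B then x1 (φ t) else x2 t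
    have z1 : ∀ t ∈ Icc A B, z t = (x1 ∘ φ) t := fun t ht => if_pos ht.2
    have z2 : ∀ t, B ≤ t → z t = x2 t := by
      intro t ht
      rcases ht.eq_or_lt with h | h
      · rw [← h, hx2]
        show (if B ≤ B then x1 (φ B) else x2 B) = x1 1
        rw [if_pos le_rfl, φB]
      · exact if_neg (not_le.mpr h)
    refine ⟨z, ?_, ?_, ⟨?_, ?_⟩, ?_⟩
    · rw [z1 A ⟨le_rfl, hAB⟩]
      show x1 (φ A) = x0
      rw [φA, hx1]
    · refine glue hAB hBE z1 (fun t ht => z2 t ht.1) ?_ hx2d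
      intro t ht
      have hd := (hx1d (φ t) (φm t ht)).1
      have := HasDerivWithinAt.scomp t hd ((φd t).hasDerivWithinAt (s := Icc A B))
        (fun u hu => φm u hu)
      refine this.congr_deriv ?_
      funext i
      show 1 / (c.h / 2 ^ P) * (c.h / 2 ^ P * G (x1 (φ t)) i) = G (x1 (φ t)) i
      field_simp
    · intro u hu
      rw [← hA, ← hB] at hu
      rw [z1 u hu]
      exact (hx1d (φ u) (φm u hu)).2
    · refine track_congr P x2 z cs _ (fun t ht => ?_) hx2t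
      rw [← hB] at ht
      exact (z2 t ht).symm
    · rw [z2 E hBE]
      exact hx2e

/-- **ZCH** -/
theorem zch : ZchStmt := by
  intro G P J w Qs D cs C C' s s' hw hQ hpos hS hrun ξ hξ x0 h0
  obtain ⟨x, hx0, hx1, hx2, hx3⟩ := chain hw hQ ξ hξ cs C C' s s' 0 hpos hS hrun x0 h0
  rw [Nat.zero_add] at hx1 hx3
  simp only [Nat.cast_zero, zero_div] at hx0 hx1
  exact ⟨x, hx0, hx1, hx2, hx3⟩

end Pool.Agent.HM.H65
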