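import Pool.Agent.Helper49_HM.MirS

/-!
# SOL: the solution of a chain and its word
-/

namespace Pool.Agent.HM.H65

open Complex Set Topology
open Pool.Agent.HM

noncomputable section

/-- shape with labels -/
def sh (l : Equiv.Perm (Fin 3)) (q : Conf) : ℂ := (q (l 1) - q (l 0)) / (q (l 2) - q (l 0))

lemma sh_rot (l : Equiv.Perm (Fin 3)) {c : ℂ} (hc : c ≠ 0) (q : Conf) :
    sh l (fun i => c * q i) = sh l q := by
  unfold sh
  rw [← mul_sub, ← mul_sub, mul_div_mul_left _ _ hc]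

def sel {α : Type*} (a b c : α) (r : ℕ) : α := if r = 0 then a else if r = 1 then b else c

lemma sel0 {α : Type*} (a b c : α) : sel a b c 0 = a := rfl
lemma sel1 {α : Type*} (a b c : α) : sel a b c 1 = b := rfl
lemma sel2 {α : Type*} (a b c : α) : sel a b c 2 = c := rfl

lemma ne0 {u : ℂ} (h : ‖u‖ = 1) : u ≠ 0 := by
  rintro rfl
  simp at h

lemma zc_rot (m : Fin 3 → ℝ) {u : ℂ} (hu : u ≠ 0) (X : JS) : zc m (rotJ u X) = zc m X := by
  unfold zc rotJ vA
  simp only
  rw [show u * X.2.1 + (w1 m : ℂ) * (u * X.1) = u * (X.2.1 + (w1 m : ℂ) * X.1) by ring,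
    mul_div_mul_left _ _ hu]

lemma zc_rev (m : Fin 3 → ℝ) (X : JS) : zc m (rev X) = zc m X := rfl

lemma key3 (K j : ℕ) (hj : j < 3 * K) :
    ∃ i < K, j = 3 * i ∨ j = 3 * i + 1 ∨ j = 3 * i + 2 :=
  ⟨j / 3, by omega, by omega⟩

/-- gluing three arcs per link -/
theorem step1 (hChain : ChainStmt) (hEmb : EmbStmt) (m : Fin 3 → ℝ) (hm : ∀ i, 0 < m i)
    (K : ℕ) (hK : 0 < K) (l : ℕ → Equiv.Perm (Fin 3)) (d1 d2 d3 : ℕ → ℝ)
    (X1 X2 X3 : ℕ → ℝ → JS) (u1 u2 u3 : ℕ → ℂ)
    (hd1 : ∀ i < K, 0 < d1 i) (hd2 : ∀ i < K, 0 < d2 i) (hd3 : ∀ i < K, 0 < d3 i)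
    (a1 : ∀ i < K, IsNArc (lab m (l i)) (d1 i) (X1 i))
    (a2 : ∀ i < K, IsNArc (lab m (l i)) (d2 i) (X2 i))
    (a3 : ∀ i < K, IsNArc (lab m (l i)) (d3 i) (X3 i))
    (hu1 : ∀ i < K, ‖u1 i‖ = 1) (hu2 : ∀ i < K, ‖u2 i‖ = 1) (hu3 : ∀ i < K, ‖u3 i‖ = 1)
    (m12 : ∀ i < K, X2 i 0 = rotJ (u1 i) (X1 i 1))
    (m23 : ∀ i < K, X3 i 0 = rotJ (u2 i) (X2 i 1))
    (m31 : ∀ i, i + 1 < K → emb (lab m (l (i + 1))) (l (i + 1)) (X1 (i + 1) 0) =
      rotF (u3 i) (emb (lab m (l i)) (l i) (X3 i 1)))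
    (mcl : emb (lab m (l 0)) (l 0) (X1 0 0) =
      rotF (u3 (K - 1)) (emb (lab m (l (K - 1))) (l (K - 1)) (X3 (K - 1) 1))) :
    ∃ q v : ℝ → Conf, IsSol m q v ∧ ∃ t : ℕ → ℝ, t 0 = 0 ∧
      (∀ i < K, t (3 * i + 1) = t (3 * i) + d1 i ∧ t (3 * i + 2) = t (3 * i + 1) + d2 i ∧
        t (3 * i + 3) = t (3 * i + 2) + d3 i) ∧
      (∀ i < K, ∀ τ ∈ Icc (0 : ℝ) 1,
        sh (l i) (q (t (3 * i) + d1 i * τ)) = zc (lab m (l i)) (X1 i τ) ∧
        sh (l i) (q (t (3 * i + 1) + d2 i * τ)) = zc (lab m (l i)) (X2 i τ) ∧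
        sh (l i) (q (t (3 * i + 2) + d3 i * τ)) = zc (lab m (l i)) (X3 i τ)) ∧
      (∃ U : ℂ, ‖U‖ = 1 ∧ ∀ s i, q (s + t (3 * K)) i = U * q s i) ∧
      (q 0, v 0) = emb (lab m (l 0)) (l 0) (X1 0 0) := by
  obtain ⟨q, v, hs, t, ht0, htj, c, hc, hc0, harc, U, hU, hper⟩ := hChain m (3 * K)
    (fun j => sel (d1 (j / 3)) (d2 (j / 3)) (d3 (j / 3)) (j % 3))
    (fun j τ => emb (lab m (l (j / 3))) (l (j / 3))
      (sel (X1 (j / 3) τ) (X2 (j / 3) τ) (X3 (j / 3) τ) (j % 3)))
    (fun j => sel (u1 (j / 3)) (u2 (j / 3)) (u3 (j / 3)) (j % 3)) (by omega)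
    (by
      intro j hj
      obtain ⟨i, hi, h | h | h⟩ := key3 K j hj
      · have e1 : j / 3 = i := by omega
        have e2 : j % 3 = 0 := by omega
        simp only [e1, e2, sel0]
        exact hd1 i hi
      · have e1 : j / 3 = i := by omega
        have e2 : j % 3 = 1 := by omega
        simp only [e1, e2, sel1]
        exact hd2 i hi
      · have e1 : j / 3 = i := by omega
        have e2 : j % 3 = 2 := by omega
        simp only [e1, e2, sel2]
        exact hd3 i hi)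
    (by
      intro j hj
      obtain ⟨i, hi, h | h | h⟩ := key3 K j hj
      · have e1 : j / 3 = i := by omega
        have e2 : j % 3 = 0 := by omega
        simp only [e1, e2, sel0]
        exact (hEmb m hm (l i)).1 _ _ (a1 i hi)
      · have e1 : j / 3 = i := by omega
        have e2 : j % 3 = 1 := by omega
        simp only [e1, e2, sel1]
        exact (hEmb m hm (l i)).1 _ _ (a2 i hi)
      · have e1 : j / 3 = i := by omega
        have e2 : j % 3 = 2 := by omega
        simp only [e1, e2, sel2]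
        exact (hEmb m hm (l i)).1 _ _ (a3 i hi))
    (by
      intro j hj τ _
      exact (hEmb m hm (l (j / 3))).2.1 _)
    (by
      intro j hj
      obtain ⟨i, hi, h | h | h⟩ := key3 K j hj
      · have e1 : j / 3 = i := by omega
        have e2 : j % 3 = 0 := by omega
        simp only [e1, e2, sel0]
        exact hu1 i hi
      · have e1 : j / 3 = i := by omega
        have e2 : j % 3 = 1 := by omega
        simp only [e1, e2, sel1]
        exact hu2 i hi
      · have e1 : j / 3 = i := by omega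
        have e2 : j % 3 = 2 := by omega
        simp only [e1, e2, sel2]
        exact hu3 i hi)
    (by
      intro j hj
      obtain ⟨i, hi, h | h | h⟩ := key3 K j (by omega)
      · have e1 : j / 3 = i := by omega
        have e2 : j % 3 = 0 := by omega
        have e3 : (j + 1) / 3 = i := by omega
        have e4 : (j + 1) % 3 = 1 := by omega
        simp only [e1, e2, e3, e4, sel0, sel1]
        rw [m12 i hi]
        exact (hEmb m hm (l i)).2.2.2.2.1 _ _
      · have e1 : j / 3 = i := by omega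
        have e2 : j % 3 = 1 := by omega
        have e3 : (j + 1) / 3 = i := by omega
        have e4 : (j + 1) % 3 = 2 := by omega
        simp only [e1, e2, e3, e4, sel1, sel2]
        rw [m23 i hi]
        exact (hEmb m hm (l i)).2.2.2.2.1 _ _
      · have e1 : j / 3 = i := by omega
        have e2 : j % 3 = 2 := by omega
        have e3 : (j + 1) / 3 = i + 1 := by omega
        have e4 : (j + 1) % 3 = 0 := by omega
        simp only [e1, e2, e3, e4, sel0, sel2]
        exact m31 i (by omega))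
    (by
      have e1 : (3 * K - 1) / 3 = K - 1 := by omega
      have e2 : (3 * K - 1) % 3 = 2 := by omega
      have e3 : 0 / 3 = 0 := rfl
      have e4 : 0 % 3 = 0 := rfl
      simp only [e1, e2, e3, e4, sel0, sel2]
      exact mcl)
  refine ⟨q, v, hs, t, ht0, ?_, ?_, ⟨U, hU, hper⟩, ?_⟩
  · intro i hi
    have h0 := htj (3 * i) (by omega)
    have h1 := htj (3 * i + 1) (by omega)
    have h2 := htj (3 * i + 2) (by omega)
    have e1 : 3 * i / 3 = i := by omega
    have e2 : 3 * i % 3 = 0 := by omega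
    have e3 : (3 * i + 1) / 3 = i := by omega
    have e4 : (3 * i + 1) % 3 = 1 := by omega
    have e5 : (3 * i + 2) / 3 = i := by omega
    have e6 : (3 * i + 2) % 3 = 2 := by omega
    simp only [e1, e2, sel0] at h0
    simp only [e3, e4, sel1] at h1
    simp only [e5, e6, sel2] at h2
    exact ⟨h0, h1, h2⟩
  · intro i hi τ hτ
    have h0 := harc (3 * i) (by omega) τ hτ
    have h1 := harc (3 * i + 1) (by omega) τ hτ
    have h2 := harc (3 * i + 2) (by omega) τ hτ
    have c0 := ne0 (hc (3 * i) (by omega))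
    have c1 := ne0 (hc (3 * i + 1) (by omega))
    have c2 := ne0 (hc (3 * i + 2) (by omega))
    have e1 : 3 * i / 3 = i := by omega
    have e2 : 3 * i % 3 = 0 := by omega
    have e3 : (3 * i + 1) / 3 = i := by omega
    have e4 : (3 * i + 1) % 3 = 1 := by omega
    have e5 : (3 * i + 2) / 3 = i := by omega
    have e6 : (3 * i + 2) % 3 = 2 := by omega
    simp only [e1, e2, sel0] at h0
    simp only [e3, e4, sel1] at h1
    simp only [e5, e6, sel2] at h2
    have z := (hEmb m hm (l i)).2.2.2.2.2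
    refine ⟨?_, ?_, ?_⟩
    · rw [z, show q (t (3 * i) + d1 i * τ) = _ from congrArg Prod.fst h0]
      exact sh_rot _ c0 _
    · rw [z, show q (t (3 * i + 1) + d2 i * τ) = _ from congrArg Prod.fst h1]
      exact sh_rot _ c1 _
    · rw [z, show q (t (3 * i + 2) + d3 i * τ) = _ from congrArg Prod.fst h2]
      exact sh_rot _ c2 _
  · have h0 := harc 0 (by omega) 0 ⟨le_rfl, zero_le_one⟩
    have e3 : 0 / 3 = 0 := rfl
    have e4 : 0 % 3 = 0 := rfl
    simp only [e3, e4, sel0, ht0, mul_zero, add_zero, hc0] at h0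
    rw [h0]
    unfold rotF
    simp

/-- the class of a block in the original time -/
theorem step2 (hBlock : BlockStmt) (Z : ℝ → ℂ) (hZ : Continuous Z)
    (hA hB : (Fin 4 → ℝ) → ℝ → ℂ) (θA θB : (Fin 4 → ℝ) → ℝ → ℝ)
    (FA : Fam hA θA) (FB : Fam hB θB)
    (hx : ∀ ξ ∈ box4, ∃ x ∈ Ioo (0 : ℝ) 1, hB ξ 0 = x) (hθ : ∀ ξ ∈ box4, θB ξ 0 = 0)
    (hcore : CoreData (hB 0))
    (hsym : ∀ ξ ∈ box4, hA (RX ξ) 0 = hA ξ 0 ∧ θA (RX ξ) 0 = θA ξ 0)
    (ξ₁ ξ₂ ξ₃ : Fin 4 → ℝ) (h₁ : ξ₁ ∈ box4) (h₂ : ξ₂ ∈ box4) (h₃ : ξ₃ ∈ box4)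
    (g₁ g₂ : ℝ → ℂ) (N₁ N₂ : ℤ)
    (hz₁ : ZonePath g₁ (hB ξ₁ 1) (hA (RX ξ₂) 1) (θB ξ₁ 1) (θA (RX ξ₂) 1 + 2 * Real.pi * N₁))
    (hz₂ : ZonePath g₂ (hA ξ₂ 1) (hB ξ₃ 1) (θA ξ₂ 1) (θB ξ₃ 1 + 2 * Real.pi * N₂))
    (a : ℕ → ℝ) (ha : ∀ j < 6, a j < a (j + 1))
    (p0 : ∀ τ ∈ Icc (0 : ℝ) 1, Z (a 0 + (a 1 - a 0) * τ) = hB ξ₁ τ)
    (p1 : ∀ τ ∈ Icc (0 : ℝ) 1, Z (a 1 + (a 2 - a 1) * τ) = g₁ τ)
    (p2 : ∀ τ ∈ Icc (0 : ℝ) 1, Z (a 2 + (a 3 - a 2) * τ) = hA (RX ξ₂) (1 - τ))
    (p3 : ∀ τ ∈ Icc (0 : ℝ) 1, Z (a 3 + (a 4 - a 3) * τ) = hA ξ₂ τ)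
    (p4 : ∀ τ ∈ Icc (0 : ℝ) 1, Z (a 4 + (a 5 - a 4) * τ) = g₂ τ)
    (p5 : ∀ τ ∈ Icc (0 : ℝ) 1, Z (a 5 + (a 6 - a 5) * τ) = hB ξ₃ (1 - τ)) :
    ClassA (fun τ => Z (a 0 + (a 6 - a 0) * τ)) (N₁ + N₂) := by
  have h06 : 0 < a 6 - a 0 := by
    have := ha 0 (by norm_num)
    have := ha 1 (by norm_num)
    have := ha 2 (by norm_num)
    have := ha 3 (by norm_num)
    have := ha 4 (by norm_num)
    have := ha 5 (by norm_num)
    norm_num at *
    linarith
  have hne : a 6 - a 0 ≠ 0 := h06.ne'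
  have gen : ∀ i j : ℕ, ∀ τ : ℝ, a 0 + (a 6 - a 0) * ((a i - a 0) / (a 6 - a 0) +
      ((a j - a 0) / (a 6 - a 0) - (a i - a 0) / (a 6 - a 0)) * τ) = a i + (a j - a i) * τ := by
    intro i j τ
    field_simp
    ring
  refine hBlock hA hB θA θB FA FB hx hθ hcore hsym ξ₁ h₁ ξ₂ h₂ ξ₃ h₃ g₁ g₂ N₁ N₂ hz₁ hz₂ _
    (fun j => (a j - a 0) / (a 6 - a 0)) ?_ ?_ ?_ ?_ ?_ ?_ ?_ ?_ ?_ ?_
  · exact (hZ.comp (by fun_prop)).continuousOn
  · simp
  · exact div_self hne
  · intro j hj
    have := ha j hj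
    exact div_lt_div_of_pos_right (by linarith) h06
  · intro τ hτ
    rw [← p0 τ hτ]
    congr 1
    field_simp
  · intro τ hτ
    rw [← p1 τ hτ]
    exact congrArg Z (gen 1 2 τ)
  · intro τ hτ
    rw [← p2 τ hτ]
    exact congrArg Z (gen 2 3 τ)
  · intro τ hτ
    rw [← p3 τ hτ]
    exact congrArg Z (gen 3 4 τ)
  · intro τ hτ
    rw [← p4 τ hτ]
    exact congrArg Z (gen 4 5 τ)
  · intro τ hτ
    rw [← p5 τ hτ]
    exact congrArg Z (gen 5 6 τ)

lemma rotJ_one (X : JS) : rotJ 1 X = X := by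
  unfold rotJ
  simp

lemma rotF_one (W : FS) : rotF 1 W = W := by
  unfold rotF
  simp

lemma rotF_neg_neg (W : FS) : rotF (-1) (rotF (-1) W) = W := by
  unfold rotF
  simp

lemma swB (hEmb : EmbStmt) (hSw : SwStmt) (hSym : SymStmt) (m : Fin 3 → ℝ) (hm : ∀ i, 0 < m i)
    (ξ : Fin 4 → ℝ) :
    emb (lab m lw) lw (initB (lab m lw) ξ) =
      rotF (-1) (emb (lab m lz) lz (rev (initB (lab m lz) (RX ξ)))) := by
  obtain ⟨h1, -, h3, -⟩ := hSw m hm
  have e := h3 (rev (initB (lab m lz) (RX ξ)))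
  rw [hSym.2.2.2 (lab m lz) (fun i => hm _) ξ, ← h1] at e
  rw [← e, (hEmb m hm lw).2.2.2.2.1, rotF_neg_neg]

lemma swB' (hEmb : EmbStmt) (hSw : SwStmt) (hSym : SymStmt) (m : Fin 3 → ℝ) (hm : ∀ i, 0 < m i)
    (ξ : Fin 4 → ℝ) :
    emb (lab m lz) lz (initB (lab m lz) ξ) =
      rotF (-1) (emb (lab m lw) lw (rev (initB (lab m lw) (RX ξ)))) := by
  obtain ⟨-, h2, -, h4⟩ := hSw m hm
  have e := h4 (rev (initB (lab m lw) (RX ξ)))
  rw [hSym.2.2.2 (lab m lw) (fun i => hm _) ξ, ← h2] at e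
  rw [← e, (hEmb m hm lz).2.2.2.2.1, rotF_neg_neg]

lemma sh_lz (q : Conf) : sh lz q = (q 2 - q 0) / (q 1 - q 0) := rfl

lemma sh_lw (q : Conf) (h : q 0 ≠ q 1) : sh lw q = 1 - (q 2 - q 0) / (q 1 - q 0) := by
  have h1 : q 1 - q 0 ≠ 0 := sub_ne_zero.mpr (Ne.symm h)
  have h2 : q 0 - q 1 ≠ 0 := sub_ne_zero.mpr h
  change (q 2 - q 1) / (q 0 - q 1) = _
  field_simp
  ring

/-- SOL -/
theorem sol : SolStmt := by
  intro hChain hCons hEmb hSw hSym hInit hArc hBlock
  obtain ⟨ε₀, hε₀, hI⟩ := hInit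
  refine ⟨min ε₀ (1 / 2), by positivity, ?_⟩
  intro m hm dA dB PA PB θA θB hdat k N hk ξ dur Q u C
  have hmp : ∀ i, 0 < m i := by
    intro i
    have h1 := (abs_lt.mp ((hm i).trans_le (min_le_right _ _))).1
    linarith
  have hnear : ∀ l : Equiv.Perm (Fin 3), Near1 ε₀ (lab m l) := fun l i =>
    (hm (l i)).trans_le (min_le_left _ _)
  obtain ⟨l, hl⟩ : ∃ l : ℕ → Equiv.Perm (Fin 3), ∀ i, l i = if i % 4 < 2 then lz else lw :=
    ⟨_, fun _ => rfl⟩
  have hmu : ∀ i, lab m (l i) = lab m lz ∨ lab m (l i) = lab m lw := by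
    intro i
    rw [hl]
    split_ifs
    · exact Or.inl rfl
    · exact Or.inr rfl
  have hbox : ∀ i ≤ 4 * k, ξ i ∈ box4 := by
    intro i hi
    rcases hi.lt_or_eq with h | h
    · exact C.box i h
    · rw [h, C.per]
      exact C.box 0 (by omega)
  have hboxR : ∀ i ≤ 4 * k, RX (ξ i) ∈ box4 := fun i hi => hSym.2.1 _ (hbox i hi)
  have hRR := hSym.1
  have hst := C.start
  have hsp := C.stop
  have hpa := C.path
  have har := C.arc
  simp only [← hl] at hst hsp hpa har
  obtain ⟨q, v, hs, t, ht0, htj, hZ, ⟨U, hU, hper⟩, hq0⟩ := step1 hChain hEmb m hmp (4 * k)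
    (by omega) l
    (fun i => (if i % 2 = 0 then dB else dA) (lab m (l i)) (ξ i)) dur
    (fun i => (if i % 2 = 0 then dA else dB) (lab m (l i)) (RX (ξ (i + 1))))
    (fun i => (if i % 2 = 0 then PB else PA) (lab m (l i)) (ξ i)) Q
    (fun i τ => rev ((if i % 2 = 0 then PA else PB) (lab m (l i)) (RX (ξ (i + 1))) (1 - τ)))
    (fun _ => 1) u (fun i => if i % 2 = 0 then 1 else -1)
    (by
      intro i hi
      have hh := hdat _ (hmu i)
      split_ifs
      · exact hh.2.1.pos _ (hbox i hi.le)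
      · exact hh.1.pos _ (hbox i hi.le))
    C.pos
    (by
      intro i hi
      have hh := hdat _ (hmu i)
      split_ifs
      · exact hh.1.pos _ (hboxR (i + 1) hi)
      · exact hh.2.1.pos _ (hboxR (i + 1) hi))
    (by
      intro i hi
      have hh := hdat _ (hmu i)
      split_ifs
      · exact hh.2.1.arc _ (hbox i hi.le)
      · exact hh.1.arc _ (hbox i hi.le))
    har
    (by
      intro i hi
      have hh := hdat _ (hmu i)
      split_ifs
      · exact hArc.1 _ _ _ (hh.1.arc _ (hboxR (i + 1) hi))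
      · exact hArc.1 _ _ _ (hh.2.1.arc _ (hboxR (i + 1) hi)))
    (by simp) C.unit
    (by
      intro i hi
      split_ifs <;> simp)
    (by
      intro i hi
      rw [rotJ_one]
      exact hst i hi)
    (by
      intro i hi
      rw [hsp i hi, sub_zero])
    (by
      intro i hi
      have hh := hdat _ (hmu i)
      have hh' := hdat _ (hmu (i + 1))
      have hb := hbox (i + 1) hi.le
      have hbR := hboxR (i + 1) hi.le
      rcases Nat.even_or_odd i with he | ho
      · have e1 : i % 2 = 0 := Nat.even_iff.mp he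
        have e2 : (i + 1) % 2 ≠ 0 := by omega
        have e3 : l (i + 1) = l i := by
          rw [hl, hl]
          by_cases h : i % 4 < 2
          · rw [if_pos h, if_pos (by omega)]
          · rw [if_neg h, if_neg (by omega)]
        rw [if_pos e1, if_pos e1, if_neg e2, e3, sub_self, rotF_one, hh.1.start _ hb,
          hh.1.start _ hbR, hSym.2.2.1 (lab m (l i)) (fun j => hmp _)]
      · have e1 : i % 2 ≠ 0 := by
          have := Nat.odd_iff.mp ho
          omega
        have e2 : (i + 1) % 2 = 0 := by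
          have := Nat.odd_iff.mp ho
          omega
        rw [if_neg e1, if_neg e1, if_pos e2, sub_self, hh'.2.1.start _ hb, hh.2.1.start _ hbR]
        by_cases h : i % 4 < 2
        · have e3 : l i = lz := by rw [hl, if_pos h]
          have e4 : l (i + 1) = lw := by rw [hl, if_neg (by omega)]
          rw [e3, e4]
          exact swB hEmb hSw hSym m hmp _
        · have e3 : l i = lw := by rw [hl, if_neg h]
          have e4 : l (i + 1) = lz := by rw [hl, if_pos (by omega)]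
          rw [e3, e4]
          exact swB' hEmb hSw hSym m hmp _)
    (by
      have hh := hdat _ (hmu 0)
      have hh' := hdat _ (hmu (4 * k - 1))
      have e1 : (4 * k - 1) % 2 ≠ 0 := by omega
      have e3 : l (4 * k - 1) = lw := by rw [hl, if_neg (by omega)]
      have e4 : l 0 = lz := by rw [hl, if_pos (by omega)]
      have e5 : 4 * k - 1 + 1 = 4 * k := by omega
      rw [if_neg e1, if_neg e1, e5, sub_self, if_pos (Nat.zero_mod 2),
        hh.2.1.start _ (hbox 0 (by omega)), hh'.2.1.start _ (hboxR (4 * k) le_rfl), e3, e4, C.per]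
      exact swB' hEmb hSw hSym m hmp _)
  -- times increase
  have hmono : ∀ n < 12 * k, t n < t (n + 1) := by
    intro n hn
    obtain ⟨i, hi, h⟩ := key3 (4 * k) n (by omega)
    have hh := hdat _ (hmu i)
    obtain ⟨h1, h2, h3⟩ := htj i hi
    rcases h with h | h | h
    · rw [h, h1]
      have : 0 < (if i % 2 = 0 then dB else dA) (lab m (l i)) (ξ i) := by
        split_ifs
        · exact hh.2.1.pos _ (hbox i hi.le)
        · exact hh.1.pos _ (hbox i hi.le)
      linarith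
    · rw [h, h2]
      have := C.pos i hi
      linarith
    · rw [h, h3]
      have : 0 < (if i % 2 = 0 then dA else dB) (lab m (l i)) (RX (ξ (i + 1))) := by
        split_ifs
        · exact hh.1.pos _ (hboxR (i + 1) hi)
        · exact hh.2.1.pos _ (hboxR (i + 1) hi)
      linarith
  have hmono' : ∀ b n, n + b ≤ 12 * k → t n ≤ t (n + b) := by
    intro b
    induction b with
    | zero => intro n _; exact le_rfl
    | succ b ih =>
      intro n hn
      have h1 := ih n (by omega)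
      have h2 := hmono (n + b) (by omega)
      rw [← add_assoc]
      linarith
  have hT : 0 < t (12 * k) := by
    have h1 := hmono 0 (by omega)
    have h2 := hmono' (12 * k - 1) 1 (by omega)
    rw [show 1 + (12 * k - 1) = 12 * k by omega] at h2
    rw [ht0] at h1
    simpa using h1.trans_le h2
  -- collision free
  have hfree : ∀ s i j, i ≠ j → q s i ≠ q s j := fun s i j hij => (hs.mem s).2 i j hij
  have hcont : ∀ i, Continuous fun s => q s i := fun i =>
    continuous_iff_continuousAt.mpr fun s => (hs.hq s i).continuousAt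
  have hshc : ∀ L : Equiv.Perm (Fin 3), Continuous fun s => sh L (q s) := by
    intro L
    unfold sh
    refine ((hcont _).sub (hcont _)).div ((hcont _).sub (hcont _)) ?_
    intro s
    refine sub_ne_zero.mpr (hfree s _ _ ?_)
    intro h
    have := L.injective h
    exact absurd this (by decide)
  -- class of a block
  have hblk : ∀ b < 2 * k, ClassA
      (fun τ => sh (l (2 * b)) (q (t (6 * b) + (t (6 * b + 6) - t (6 * b)) * τ)))
      (N (2 * b) + N (2 * b + 1)) := by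
    intro b hb
    have hi : 2 * b < 4 * k := by omega
    have hi' : 2 * b + 1 < 4 * k := by omega
    have hll : l (2 * b + 1) = l (2 * b) := by
      rw [hl, hl]
      by_cases h : 2 * b % 4 < 2
      · rw [if_pos h, if_pos (by omega)]
      · rw [if_neg h, if_neg (by omega)]
    obtain ⟨hA, hB, hC, hLA, hLB, hL0, hLR⟩ := hdat _ (hmu (2 * b))
    have e0 : 2 * b % 2 = 0 := by omega
    have e1 : (2 * b + 1) % 2 ≠ 0 := by omega
    have z1 := hZ (2 * b) hi
    have z2 := hZ (2 * b + 1) hi'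
    have t1 := htj (2 * b) hi
    have t2 := htj (2 * b + 1) hi'
    have pa1 := hpa (2 * b) hi
    have pa2 := hpa (2 * b + 1) hi'
    have st1 := hst (2 * b) hi
    have st2 := hst (2 * b + 1) hi'
    have sp1 := hsp (2 * b) hi
    have sp2 := hsp (2 * b + 1) hi'
    rw [hll] at z2 t2 pa2 st2 sp2
    simp only [if_pos e0] at z1 t1 pa1 st1 sp1
    simp only [if_neg e1] at z2 t2 pa2 st2 sp2
    rw [show 3 * (2 * b) = 6 * b by ring] at z1 t1
    rw [show 3 * (2 * b + 1) = 6 * b + 3 by ring] at z2 t2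
    have u1 := ne0 (C.unit (2 * b) hi)
    have u2 := ne0 (C.unit (2 * b + 1) hi')
    have q1 : zc (lab m (l (2 * b))) (Q (2 * b) 1) =
        zc (lab m (l (2 * b))) (PA (lab m (l (2 * b))) (RX (ξ (2 * b + 1))) 1) := by
      rw [← zc_rot _ u1, sp1, zc_rev]
    have q2 : zc (lab m (l (2 * b))) (Q (2 * b + 1) 1) =
        zc (lab m (l (2 * b))) (PB (lab m (l (2 * b))) (RX (ξ (2 * b + 1 + 1))) 1) := by
      rw [← zc_rot _ u2, sp2, zc_rev]
    rw [q1, st1] at pa1
    rw [q2, st2] at pa2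
    refine step2 hBlock (fun s => sh (l (2 * b)) (q s)) (hshc _)
      (fun ξ τ => zc (lab m (l (2 * b))) (PA (lab m (l (2 * b))) ξ τ))
      (fun ξ τ => zc (lab m (l (2 * b))) (PB (lab m (l (2 * b))) ξ τ))
      (θA (lab m (l (2 * b)))) (θB (lab m (l (2 * b)))) hLA hLB ?_ hL0 hC ?_
      (ξ (2 * b)) (ξ (2 * b + 1)) (RX (ξ (2 * b + 1 + 1)))
      (hbox _ hi.le) (hbox _ hi'.le) (hboxR _ hi') _ _ _ _ pa1 pa2
      (fun j => t (6 * b + j)) ?_ ?_ ?_ ?_ ?_ ?_ ?_
    · intro ξ' hξ'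
      rw [hB.start ξ' hξ']
      exact (hI _ (hnear _) ξ' hξ').2.2
    · intro ξ' hξ'
      refine ⟨?_, hLR ξ' hξ'⟩
      rw [hA.start ξ' hξ', hA.start _ (hSym.2.1 _ hξ'), ← hSym.2.2.1 (lab m (l (2 * b)))
        (fun j => hmp _) ξ', zc_rev]
    · intro j hj
      exact hmono (6 * b + j) (by omega)
    · intro τ hτ
      rw [show t (6 * b + 1) - t (6 * b + 0) = dB (lab m (l (2 * b))) (ξ (2 * b)) by
        rw [add_zero]; linarith [t1.1], add_zero]
      exact (z1 τ hτ).1
    · intro τ hτ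
      rw [show t (6 * b + 2) - t (6 * b + 1) = dur (2 * b) by linarith [t1.2.1]]
      exact (z1 τ hτ).2.1
    · intro τ hτ
      rw [show t (6 * b + 3) - t (6 * b + 2) =
        dA (lab m (l (2 * b))) (RX (ξ (2 * b + 1))) by linarith [t1.2.2]]
      exact (z1 τ hτ).2.2
    · intro τ hτ
      rw [show t (6 * b + 4) - t (6 * b + 3) = dA (lab m (l (2 * b))) (ξ (2 * b + 1)) by
        linarith [t2.1]]
      exact (z2 τ hτ).1
    · intro τ hτ
      rw [show t (6 * b + 5) - t (6 * b + 4) = dur (2 * b + 1) by linarith [t2.2.1]]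
      exact (z2 τ hτ).2.1
    · intro τ hτ
      rw [show t (6 * b + 6) - t (6 * b + 5) =
        dB (lab m (l (2 * b))) (RX (ξ (2 * b + 1 + 1))) by linarith [t2.2.2]]
      exact (z2 τ hτ).2.2
  have hne : t (12 * k) ≠ 0 := hT.ne'
  have hLev : Lev (lab m lz) (initB (lab m lz) (ξ 0)) := (hI _ (hnear lz) _ (hbox 0 (by omega))).2.1
  have hl0 : l 0 = lz := by rw [hl, if_pos (by omega)]
  have hstart : (q 0, v 0) = emb (lab m lz) lz (initB (lab m lz) (ξ 0)) := by
    rw [hq0, hl0, if_pos (Nat.zero_mod 2),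
      (hdat _ (Or.inl rfl)).2.1.start _ (hbox 0 (by omega))]
  refine ⟨q, v, hs, t (12 * k), U, hT, hU, ?_, ?_, ?_, ?_⟩
  · intro s i
    rw [show 12 * k = 3 * (4 * k) by ring]
    exact hper s i
  · intro s
    rw [(hCons m q v hs s).1, show q 0 = _ from congrArg Prod.fst hstart,
      show v 0 = _ from congrArg Prod.snd hstart, (hEmb m hmp lz).2.2.1, hLev.2.1]
  · intro s
    rw [(hCons m q v hs s).2, show q 0 = _ from congrArg Prod.fst hstart,
      show v 0 = _ from congrArg Prod.snd hstart, (hEmb m hmp lz).2.2.2.1, hLev.2.2]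
  · refine ⟨fun j => t (6 * j) / t (12 * k), ?_, ?_, ?_, ?_⟩
    · simp [ht0]
    · change t (6 * (2 * k)) / t (12 * k) = 1
      rw [show 6 * (2 * k) = 12 * k by ring]
      exact div_self hne
    · intro j hj
      refine div_lt_div_of_pos_right ?_ hT
      have h1 := hmono (6 * j) (by omega)
      have h2 := hmono' 5 (6 * j + 1) (by omega)
      rw [show 6 * j + 1 + 5 = 6 * (j + 1) by ring] at h2
      exact h1.trans_le h2
    · intro j hj
      have gen : ∀ b c : ℕ, ∀ τ : ℝ, t (12 * k) * (t b / t (12 * k) +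
          (t c / t (12 * k) - t b / t (12 * k)) * τ) = t b + (t c - t b) * τ := by
        intro b c τ
        field_simp
      have b1 := hblk (2 * j) (by omega)
      have b2 := hblk (2 * j + 1) (by omega)
      constructor
      · convert b1 using 1
        · funext τ
          rw [show l (2 * (2 * j)) = lz by rw [hl, if_pos (by omega)], sh_lz]
          unfold sub
          dsimp only
          rw [gen, show 6 * (2 * j + 1) = 6 * (2 * j) + 6 by ring]
      · unfold ClassB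
        convert b2 using 1
        · funext τ
          rw [show l (2 * (2 * j + 1)) = lw by rw [hl, if_neg (by omega)],
            sh_lw _ (hfree _ _ _ (by decide))]
          unfold sub
          dsimp only
          rw [gen, show 6 * (2 * j + 2) = 6 * (2 * j + 1) + 6 by ring]

end

end Pool.Agent.HM.H65
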